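import Mathlib

/-! `n`-ary contact is not first-order definable from binary contact for `n ≥ 3`. -/

namespace Pool.Agent.Results.MP_2fbd40_lc.NotDefinable

open FirstOrder Filter

/-- function symbols `0, 1, *, +, ·` -/
inductive Fn : ℕ → Type
  | zero : Fn 0
  | one : Fn 0
  | cmp : Fn 1
  | add : Fn 2
  | mul : Fn 2

/-- the relation symbol `C` -/
inductive Rl : ℕ → Type
  | con : Rl 2

/-- the first-order language of contact algebras -/
def L : Language := ⟨Fn, Rl⟩

/-- regular closed subsets of a space -/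
def RC (X : Type) [TopologicalSpace X] : Type := {a : Set X // closure (interior a) = a}

theorem RC.closed {X : Type} [TopologicalSpace X] (a : RC X) : IsClosed a.1 :=
  a.2 ▸ isClosed_closure

/-- the standard contact algebra of regular closed sets -/
@[reducible] def rcStr (X : Type) [TopologicalSpace X] : L.Structure (RC X) where
  funMap := fun f v => match f with
    | .zero => ⟨∅, by simp⟩
    | .one => ⟨Set.univ, by simp⟩
    | .cmp => ⟨closure (v 0).1ᶜ, by
        rw [← (v 0).closed.isOpen_compl.interior_eq]; exact closure_interior_idem⟩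
    | .add => ⟨(v 0).1 ∪ (v 1).1, by
        apply Set.Subset.antisymm
        · exact closure_minimal interior_subset ((v 0).closed.union (v 1).closed)
        · apply Set.union_subset
          · exact (v 0).2.symm.subset.trans (closure_mono (interior_mono Set.subset_union_left))
          · exact (v 1).2.symm.subset.trans (closure_mono (interior_mono Set.subset_union_right))⟩
    | .mul => ⟨closure (interior ((v 0).1 ∩ (v 1).1)), closure_interior_idem⟩
  RelMap := fun r v => match r with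
    | .con => ((v 0).1 ∩ (v 1).1).Nonempty

/-- a Boolean algebra with a binary relation, as a structure for `L` -/
@[reducible] def str (B : Type) [BooleanAlgebra B] (C : B → B → Prop) : L.Structure B where
  funMap := fun f v => match f with
    | .zero => ⊥
    | .one => ⊤
    | .cmp => (v 0)ᶜ
    | .add => v 0 ⊔ v 1
    | .mul => v 0 ⊓ v 1
  RelMap := fun r v => match r with
    | .con => C (v 0) (v 1)

/-- the conditions (C1)-(C4) -/
structure IsContact {B : Type} [BooleanAlgebra B] (C : B → B → Prop) : Prop where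
  c1 : ∀ a b, C a b → a ≠ ⊥ ∧ b ≠ ⊥
  c2 : ∀ a b c, C a (b ⊔ c) ↔ C a b ∨ C a c
  c3 : ∀ a b, C a b → C b a
  c4 : ∀ a b, a ⊓ b ≠ ⊥ → C a b

/-- clans of a contact algebra -/
structure Clan {B : Type} [BooleanAlgebra B] (C : B → B → Prop) (Γ : Set B) : Prop where
  ne : Γ.Nonempty
  nb : ⊥ ∉ Γ
  up : ∀ a b, a ∈ Γ → a ≤ b → b ∈ Γ
  pr : ∀ a b, a ⊔ b ∈ Γ → a ∈ Γ ∨ b ∈ Γ
  cl : ∀ a ∈ Γ, ∀ b ∈ Γ, C a b

section spaces
variable {Z : Type} (nb : Z → Fin 3 → Prop)

/-- three isolated points and limit points `z` with neighbours `nb z` -/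
inductive Sp (_nb : Z → Fin 3 → Prop) : Type
  | inl (d : Fin 3)
  | inr (z : Z)

instance : TopologicalSpace (Sp nb) where
  IsOpen U := ∀ z d, nb z d → Sp.inr z ∈ U → Sp.inl d ∈ U
  isOpen_univ := fun _ _ _ _ => trivial
  isOpen_inter := fun _ _ h k z d e m => ⟨h z d e m.1, k z d e m.2⟩
  isOpen_sUnion := fun _ h z d e ⟨t, ht, m⟩ => ⟨t, ht, h t ht z d e m⟩

theorem cl_inl (a : Set (Sp nb)) (d : Fin 3) : Sp.inl d ∈ closure a ↔ Sp.inl d ∈ a := by
  refine ⟨fun h => ?_, fun h => subset_closure h⟩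
  obtain ⟨x, h1, h2⟩ := mem_closure_iff.1 h {x | x = Sp.inl d} (fun _ _ _ m => nomatch m) rfl
  exact h1 ▸ h2

theorem int_inl (a : Set (Sp nb)) (d : Fin 3) : Sp.inl d ∈ interior a ↔ Sp.inl d ∈ a := by
  rw [interior_eq_compl_closure_compl]
  exact (not_congr (cl_inl nb aᶜ d)).trans not_not

theorem cl_inr (a : Set (Sp nb)) (z : Z) :
    Sp.inr z ∈ closure a ↔ Sp.inr z ∈ a ∨ ∃ d, nb z d ∧ Sp.inl d ∈ a := by
  constructor
  · intro h
    obtain ⟨x, h1, h2⟩ := mem_closure_iff.1 h {x | x = Sp.inr z ∨ ∃ d, nb z d ∧ x = Sp.inl d}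
      (fun z' d e m => by
        rcases m with m | ⟨_, _, m⟩
        · cases m; exact Or.inr ⟨d, e, rfl⟩
        · cases m) (Or.inl rfl)
    rcases h1 with rfl | ⟨d, e, rfl⟩
    · exact Or.inl h2
    · exact Or.inr ⟨d, e, h2⟩
  · rintro (h | ⟨d, e, h⟩)
    · exact subset_closure h
    · exact mem_closure_iff.2 fun o ho m => ⟨_, ho z d e m, h⟩

theorem rc_inr (hn : ∀ z, ∃ d, nb z d) (a : RC (Sp nb)) (z : Z) :
    Sp.inr z ∈ a.1 ↔ ∃ d, nb z d ∧ Sp.inl d ∈ a.1 := by
  conv_lhs => rw [← a.2, cl_inr]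
  simp only [int_inl]
  refine ⟨fun h => h.elim (fun h => ?_) id, Or.inr⟩
  obtain ⟨d, e⟩ := hn z
  exact ⟨d, e, interior_subset (isOpen_interior (s := a.1) z d e h)⟩

/-- the regular closed set generated by a set of isolated points -/
def up (s : Set (Fin 3)) : RC (Sp nb) :=
  ⟨closure (interior {x | ∃ d ∈ s, x = Sp.inl d}), closure_interior_idem⟩

theorem up_inl (s : Set (Fin 3)) (d : Fin 3) : Sp.inl d ∈ (up nb s).1 ↔ d ∈ s := by
  refine (cl_inl nb _ d).trans ((int_inl nb _ d).trans ⟨?_, fun h => ⟨d, h, rfl⟩⟩)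
  rintro ⟨e, h, k⟩
  cases k; exact h

def C3 (s t : Set (Fin 3)) : Prop := s.Nonempty ∧ t.Nonempty

def iso (hn : ∀ z, ∃ d, nb z d) (hp : ∀ d e, ∃ z, nb z d ∧ nb z e) :
    @Language.Equiv L (RC (Sp nb)) (Set (Fin 3)) (rcStr _) (str _ C3) :=
  @Language.Equiv.mk L (RC (Sp nb)) (Set (Fin 3)) (rcStr _) (str _ C3)
    { toFun := fun a => {d | Sp.inl d ∈ a.1}
      invFun := up nb
      left_inv := fun a => Subtype.ext (Set.ext fun x => by
        cases x with
        | inl d => exact up_inl nb _ d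
        | inr z =>
          rw [rc_inr nb hn, rc_inr nb hn]
          simp only [up_inl]; rfl)
      right_inv := fun s => Set.ext fun d => up_inl nb s d }
    (fun f v => by
      cases f with
      | zero => rfl
      | one => rfl
      | cmp => exact Set.ext fun d => cl_inl nb _ d
      | add => rfl
      | mul => exact Set.ext fun d => (cl_inl nb _ d).trans (int_inl nb _ d))
    (fun r v => by
      cases r
      constructor
      · rintro ⟨⟨d, hd⟩, e, he⟩
        obtain ⟨z, z1, z2⟩ := hp d e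
        exact ⟨Sp.inr z, (rc_inr nb hn _ z).2 ⟨d, z1, hd⟩, (rc_inr nb hn _ z).2 ⟨e, z2, he⟩⟩
      · rintro ⟨x, h1, h2⟩
        cases x with
        | inl d => exact ⟨⟨d, h1⟩, d, h2⟩
        | inr z =>
          obtain ⟨d, _, hd⟩ := (rc_inr nb hn _ z).1 h1
          obtain ⟨e, _, he⟩ := (rc_inr nb hn _ z).1 h2
          exact ⟨⟨d, hd⟩, e, he⟩)

theorem real_up (hn : ∀ z, ∃ d, nb z d) (hp : ∀ d e, ∃ z, nb z d ∧ nb z e) {n : ℕ}
    (φ : L.Formula (Fin n)) (s : Fin n → Set (Fin 3)) :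
    @Language.Formula.Realize L _ (rcStr _) _ φ (fun i => up nb (s i)) ↔
      @Language.Formula.Realize L _ (str _ C3) _ φ s := by
  have := @Language.StrongHomClass.realize_formula L _ _ (rcStr _) (str _ C3) _ _ _ _
    (iso nb hn hp) φ (fun i => up nb (s i))
  rw [← this]
  have e : (iso nb hn hp) ∘ (fun i => up nb (s i)) = s :=
    funext fun i => Set.ext fun d => up_inl nb _ d
  rw [e]

end spaces

def col {n : ℕ} (i : Fin n) : Fin 3 := if i.1 = 0 then 0 else if i.1 = 1 then 1 else 2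

theorem col_surj {n : ℕ} (hn : 3 ≤ n) (t : Fin 3) : ∃ i : Fin n, col i = t :=
  ⟨⟨t.1, by omega⟩, by fin_cases t <;> rfl⟩

theorem partA {n : ℕ} (hn : 3 ≤ n) : ¬ ∃ φ : L.Formula (Fin n),
    ∀ (X : Type) [TopologicalSpace X] [Nonempty X] (a : Fin n → RC X),
      @Language.Formula.Realize L _ (rcStr X) _ φ a ↔ (⋂ i, (a i).1).Nonempty := by
  rintro ⟨φ, h⟩
  let n1 : Fin 3 → Fin 3 → Prop := fun z d => z ≠ d
  let n2 : Unit → Fin 3 → Prop := fun _ _ => True
  have a1 : ∀ z, ∃ d, n1 z d := by simp only [n1]; decide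
  have b1 : ∀ d e, ∃ z, n1 z d ∧ n1 z e := by simp only [n1]; decide
  have a2 : ∀ z, ∃ d, n2 z d := fun _ => ⟨0, trivial⟩
  have b2 : ∀ d e, ∃ z, n2 z d ∧ n2 z e := fun _ _ => ⟨(), trivial, trivial⟩
  have : Nonempty (Sp n1) := ⟨Sp.inl 0⟩
  have : Nonempty (Sp n2) := ⟨Sp.inl 0⟩
  have k2 : (⋂ i : Fin n, (up n2 {col i}).1).Nonempty :=
    ⟨Sp.inr (), Set.mem_iInter.2 fun i =>
      (rc_inr n2 a2 _ _).2 ⟨col i, trivial, (up_inl n2 _ _).2 rfl⟩⟩
  obtain ⟨x, hx⟩ := (h _ fun i => up n1 {col i}).1 ((real_up n1 a1 b1 φ _).2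
    ((real_up n2 a2 b2 φ _).1 ((h _ fun i => up n2 {col i}).2 k2)))
  rw [Set.mem_iInter] at hx
  cases x with
  | inl d =>
    obtain ⟨i, hi⟩ := col_surj hn (d + 1)
    have e : d = col i := (up_inl n1 {col i} d).1 (hx i)
    rw [hi] at e
    revert e; fin_cases d <;> decide
  | inr z =>
    obtain ⟨i, hi⟩ := col_surj hn z
    obtain ⟨d, e, hd⟩ := (rc_inr n1 a1 _ _).1 (hx i)
    have e' : d = col i := (up_inl n1 {col i} d).1 hd
    exact e (hi.symm.trans e'.symm)

abbrev V : Type := (ℕ × ℕ) × Fin 3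

def sh (k : ℕ) (p q : V) : Prop :=
  p.1.2 = q.1.1 ∧ p.1.1 < p.1.2 ∧ q.1.1 < q.1.2 ∧ q.1.2 < k

def Ck (k : ℕ) (s t : Set V) : Prop := ∃ p ∈ s, ∃ q ∈ t, p = q ∨ sh k p q ∨ sh k q p

theorem contactK (k : ℕ) : IsContact (Ck k) where
  c1 := by
    rintro a b ⟨p, hp, q, hq, _⟩
    constructor
    · rintro rfl; exact hp
    · rintro rfl; exact hq
  c2 := by
    intro a b c
    constructor
    · rintro ⟨p, hp, q, hq | hq, h⟩
      exacts [Or.inl ⟨p, hp, q, hq, h⟩, Or.inr ⟨p, hp, q, hq, h⟩]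
    · rintro (⟨p, hp, q, hq, h⟩ | ⟨p, hp, q, hq, h⟩)
      exacts [⟨p, hp, q, Or.inl hq, h⟩, ⟨p, hp, q, Or.inr hq, h⟩]
  c3 := fun _ _ ⟨p, hp, q, hq, h⟩ => ⟨q, hq, p, hp, by tauto⟩
  c4 := by
    intro a b h
    by_contra hn
    exact h (Set.eq_empty_of_forall_notMem fun p hp => hn ⟨p, hp.1, p, hp.2, Or.inl rfl⟩)

def part (t : Fin 3) : Set V := {p | p.2 = t}

theorem clan_atom {C : Set V → Set V → Prop} {Γ : Set (Set V)} (h : Clan C Γ) (F : Finset V) :
    ∀ s ∈ Γ, (∃ p ∈ s, {p} ∈ Γ) ∨ s \ F ∈ Γ := by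
  induction F using Finset.induction_on with
  | empty => intro s hs; right; simpa using hs
  | insert p F _ ih =>
    intro s hs
    refine (ih s hs).elim Or.inl fun h1 => ?_
    by_cases hp : p ∈ s
    · have : ({p} : Set V) ⊔ s \ ↑(insert p F) ∈ Γ := h.up _ _ h1 fun x hx => by
        by_cases e : x = p
        · exact Or.inl e
        · exact Or.inr ⟨hx.1, by simpa [e] using hx.2⟩
      exact (h.pr _ _ this).imp (fun k => ⟨p, hp, k⟩) id
    · refine Or.inr (h.up _ _ h1 fun x hx => ⟨hx.1, ?_⟩)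
      have e : x ≠ p := fun e => hp (e ▸ hx.1)
      simpa [e] using hx.2

theorem no_clan (k : ℕ) (Γ : Set (Set V)) (h : Clan (Ck k) Γ) : ¬ ∀ t, part t ∈ Γ := by
  intro hp
  have at' : ∀ t, ∃ p : V, p.2 = t ∧ {p} ∈ Γ := by
    intro t
    refine (clan_atom h ((Finset.range k ×ˢ Finset.range k) ×ˢ Finset.univ) _ (hp t)).resolve_right
      fun hc => ?_
    obtain ⟨p, ⟨p1, p2⟩, q, hq, e⟩ := h.cl _ hc _ (hp (t + 1))
    simp only [Finset.coe_product, Set.mem_prod, Finset.mem_coe, Finset.mem_range,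
      Finset.mem_univ, and_true] at p2
    rcases e with rfl | e | e
    · have e : t = t + 1 := p1.symm.trans hq
      revert e; fin_cases t <;> decide
    · unfold sh at e; omega
    · unfold sh at e; omega
  obtain ⟨p, p1, p2⟩ := at' 0
  obtain ⟨q, q1, q2⟩ := at' 1
  obtain ⟨r, r1, r2⟩ := at' 2
  obtain ⟨_, rfl, _, rfl, e1⟩ := h.cl _ p2 _ q2
  obtain ⟨_, rfl, _, rfl, e2⟩ := h.cl _ q2 _ r2
  obtain ⟨_, rfl, _, rfl, e3⟩ := h.cl _ p2 _ r2
  have e1 := e1.resolve_left fun e => by rw [e, q1] at p1; cases p1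
  have e2 := e2.resolve_left fun e => by rw [e, r1] at q1; cases q1
  have e3 := e3.resolve_left fun e => by rw [e, r1] at p1; cases p1
  unfold sh at e1 e2 e3
  omega

noncomputable abbrev U : Ultrafilter ℕ := hyperfilter ℕ

/-- the underlying set of the ultraproduct -/
abbrev G : Type := Germ (U : Filter ℕ) (Set V)

noncomputable instance : BooleanAlgebra G :=
  { (inferInstance : DistribLattice (Germ (U : Filter ℕ) (Set V))),
    (inferInstance : BoundedOrder (Germ (U : Filter ℕ) (Set V))) with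
    compl := Germ.map compl
    sdiff := fun a b : Germ (U : Filter ℕ) (Set V) => a ⊓ Germ.map compl b
    himp := fun a b : Germ (U : Filter ℕ) (Set V) => b ⊔ Germ.map compl a
    inf_compl_le_bot := fun a => Germ.inductionOn a fun _ =>
      Germ.coe_le.2 (Eventually.of_forall fun _ => inf_compl_eq_bot.le)
    top_le_sup_compl := fun a => Germ.inductionOn a fun _ =>
      Germ.coe_le.2 (Eventually.of_forall fun _ => sup_compl_eq_top.ge)
    sdiff_eq := fun _ _ => rfl
    himp_eq := fun _ _ => rfl }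

noncomputable def mk (f : ℕ → Set V) : G := (f : Germ (U : Filter ℕ) (Set V))

theorem mk_surj (x : G) : ∃ f, mk f = x := Germ.inductionOn x fun f => ⟨f, rfl⟩

theorem mk_eq {f g : ℕ → Set V} : mk f = mk g ↔ ∀ᶠ k in U, f k = g k := Germ.coe_eq

theorem mk_le {f g : ℕ → Set V} : mk f ≤ mk g ↔ ∀ᶠ k in U, f k ≤ g k := Germ.coe_le

def CG (x y : G) : Prop := ∃ f g, mk f = x ∧ mk g = y ∧ ∀ᶠ k in U, Ck k (f k) (g k)

theorem CG_mk {f g : ℕ → Set V} : CG (mk f) (mk g) ↔ ∀ᶠ k in U, Ck k (f k) (g k) := by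
  refine ⟨?_, fun h => ⟨f, g, rfl, rfl, h⟩⟩
  rintro ⟨f', g', h1, h2, h⟩
  filter_upwards [mk_eq.1 h1, mk_eq.1 h2, h] with k e1 e2 e
  rwa [← e1, ← e2]

theorem contactG : IsContact CG where
  c1 := by
    rintro _ _ ⟨f, g, rfl, rfl, h⟩
    constructor
    · intro e
      obtain ⟨k, h1, h2⟩ := (h.and ((mk_eq (g := fun _ => ⊥)).1 e)).exists
      exact ((contactK k).c1 _ _ h1).1 h2
    · intro e
      obtain ⟨k, h1, h2⟩ := (h.and ((mk_eq (g := fun _ => ⊥)).1 e)).exists
      exact ((contactK k).c1 _ _ h1).2 h2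
  c2 := by
    intro a b c
    obtain ⟨f, rfl⟩ := mk_surj a
    obtain ⟨g, rfl⟩ := mk_surj b
    obtain ⟨h, rfl⟩ := mk_surj c
    refine (CG_mk (g := fun k => g k ⊔ h k)).trans ?_
    simp only [CG_mk, (contactK _).c2, Ultrafilter.eventually_or]
  c3 := by
    rintro _ _ ⟨f, g, rfl, rfl, h⟩
    exact CG_mk.2 (h.mono fun k => (contactK k).c3 _ _)
  c4 := by
    intro a b h
    obtain ⟨f, rfl⟩ := mk_surj a
    obtain ⟨g, rfl⟩ := mk_surj b
    have : ¬ ∀ᶠ k in U, f k ⊓ g k = ⊥ := fun e =>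
      h ((mk_eq (f := fun k => f k ⊓ g k) (g := fun _ => ⊥)).2 e)
    exact CG_mk.2 ((Ultrafilter.eventually_not.2 this).mono fun k => (contactK k).c4 _ _)

def Big (f : ℕ → Set V) (t : Fin 3) : Prop :=
  ∀ᶠ i in U, ∀ᶠ j in U, ∀ᶠ k in U, ((i, j), t) ∈ f k

theorem Big.mono {f g : ℕ → Set V} {t} (h : Big f t) (e : ∀ᶠ k in U, f k ≤ g k) : Big g t :=
  Eventually.mono h fun _ h => h.mono fun _ h => (h.and e).mono fun _ h => h.2 h.1

theorem ev_gt (i : ℕ) : ∀ᶠ j in U, i < j :=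
  (eventually_gt_atTop i).filter_mono Nat.hyperfilter_le_atTop

theorem clanG : Clan CG {x | ∃ f t, mk f = x ∧ Big f t} where
  ne := ⟨_, fun _ => Set.univ, 0, rfl, by simp [Big]⟩
  nb := by
    rintro ⟨f, t, e, h⟩
    have := h.mono (((mk_eq (g := fun _ => ⊥)).1 e).mono fun _ h => h.le)
    obtain ⟨i, hi⟩ := Eventually.exists this
    obtain ⟨j, hj⟩ := hi.exists
    obtain ⟨k, hk⟩ := hj.exists
    exact hk
  up := by
    rintro _ b ⟨f, t, rfl, h⟩ e
    obtain ⟨g, rfl⟩ := mk_surj b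
    exact ⟨g, t, rfl, h.mono (mk_le.1 e)⟩
  pr := by
    rintro a b ⟨h, t, e, k⟩
    obtain ⟨f, rfl⟩ := mk_surj a
    obtain ⟨g, rfl⟩ := mk_surj b
    have := k.mono (((mk_eq (g := fun k => f k ⊔ g k)).1 e).mono fun _ h => h.le)
    simp only [Big, Set.sup_eq_union, Set.mem_union, Ultrafilter.eventually_or] at this
    exact this.imp (fun h => ⟨f, t, rfl, h⟩) fun h => ⟨g, t, rfl, h⟩
  cl := by
    rintro _ ⟨f, t, rfl, h⟩ _ ⟨g, s, rfl, k⟩
    obtain ⟨i, hi⟩ := h.exists
    obtain ⟨j, h1, h2, h3⟩ := (hi.and ((ev_gt i).and k)).exists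
    obtain ⟨l, h4, h5⟩ := (h3.and (ev_gt j)).exists
    refine CG_mk.2 ?_
    filter_upwards [h1, h4, ev_gt l] with m m1 m2 m3
    exact ⟨_, m1, _, m2, Or.inr (Or.inl ⟨rfl, h2, h5, m3⟩)⟩

theorem los {n : ℕ} (φ : L.Formula (Fin n)) (x : Fin n → ℕ → Set V) :
    @Language.Formula.Realize L _ (str G CG) _ φ (fun i => mk (x i)) ↔
      ∀ᶠ k in U, @Language.Formula.Realize L _ (str _ (Ck k)) _ φ fun i => x i k := by
  let S := @Language.Ultraproduct.structure ℕ (fun _ => Set V) U L fun k => str _ (Ck k)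
  let g : @Language.Equiv L G ((U : Filter ℕ).Product fun _ => Set V) (str G CG) S :=
    @Language.Equiv.mk L G ((U : Filter ℕ).Product fun _ => Set V) (str G CG) S
      (Equiv.refl G)
      (fun f v => by
        choose w hw using fun i => mk_surj (v i)
        obtain rfl : v = fun i => mk (w i) := funext fun i => (hw i).symm
        refine Eq.trans ?_ (@Language.Ultraproduct.funMap_cast ℕ (fun _ => Set V) U L
          (fun k => str _ (Ck k)) _ f w).symm
        cases f <;> rfl)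
      (fun r v => by
        choose w hw using fun i => mk_surj (v i)
        obtain rfl : v = fun i => mk (w i) := funext fun i => (hw i).symm
        refine Iff.trans (@Language.relMap_quotient_mk' L _ _
          (@Language.Ultraproduct.setoidPrestructure ℕ (fun _ => Set V) U L
            fun k => str _ (Ck k)) _ r w) ?_
        cases r
        exact CG_mk.symm)
  refine Iff.trans ?_ (@Language.Ultraproduct.realize_formula_cast ℕ (fun _ => Set V) U L
    (fun k => str _ (Ck k)) _ _ φ x)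
  exact (@Language.StrongHomClass.realize_formula L _ _ (str G CG) S _ _ _ _ g φ _).symm

theorem partB {n : ℕ} (hn : 3 ≤ n) : ¬ ∃ φ : L.Formula (Fin n),
    ∀ (B : Type) [BooleanAlgebra B] [Nontrivial B] (C : B → B → Prop), IsContact C →
      ∀ a : Fin n → B, @Language.Formula.Realize L _ (str B C) _ φ a ↔
        ∃ Γ, Clan C Γ ∧ ∀ i, a i ∈ Γ := by
  rintro ⟨φ, h⟩
  have : Nontrivial G := inferInstanceAs (Nontrivial (Germ (U : Filter ℕ) (Set V)))
  have h1 := (h G CG contactG fun i => mk fun _ => part (col i)).2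
    ⟨_, clanG, fun i => ⟨_, col i, rfl, by simp [Big, part]⟩⟩
  obtain ⟨k, hk⟩ := ((los φ fun i _ => part (col i)).1 h1).exists
  obtain ⟨Γ, g1, g2⟩ := (h _ (Ck k) (contactK k) _).1 hk
  refine no_clan k Γ g1 fun t => ?_
  obtain ⟨i, rfl⟩ := col_surj hn t
  exact g2 i

theorem result (n : ℕ) (hn : 3 ≤ n) :
    (¬ ∃ φ : L.Formula (Fin n),
      ∀ (X : Type) [TopologicalSpace X] [Nonempty X] (a : Fin n → RC X),
        @Language.Formula.Realize L _ (rcStr X) _ φ a ↔ (⋂ i, (a i).1).Nonempty) ∧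
    (¬ ∃ φ : L.Formula (Fin n),
      ∀ (B : Type) [BooleanAlgebra B] [Nontrivial B] (C : B → B → Prop), IsContact C →
        ∀ a : Fin n → B, @Language.Formula.Realize L _ (str B C) _ φ a ↔
          ∃ Γ, Clan C Γ ∧ ∀ i, a i ∈ Γ) :=
  ⟨partA hn, partB hn⟩

end Pool.Agent.Results.MP_2fbd40_lc.NotDefinable
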